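import Pool.Agent.Y150.CD.Stm

set_option autoImplicit false

namespace Pool.Agent.Y217.CD

open Pool.Agent.Y150.CD

theorem no_sq : ¬ IsSquare (2 : ZMod 3) := by decide

theorem one_prime (i n : ℕ) : ∃ p : ℕ, n < p ∧ p.Prime ∧ 2 ^ (2 * i + 2) ∣ p - 1 ∧
    ¬ IsSquare (3 : ZMod p) := by
  have h4 : (2 : ℕ) ^ (2 * i + 2) = 4 * 4 ^ i := by
    rw [pow_add, pow_mul]; norm_num; ring
  have h3 : (4 : ℕ) ^ i % 3 = 1 := by
    rw [Nat.pow_mod]; norm_num
  have hcop : (1 + 2 ^ (2 * i + 2)).Coprime (3 * 2 ^ (2 * i + 2)) := by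
    apply Nat.Coprime.mul_right
    · rw [h4, Nat.coprime_comm, Nat.Prime.coprime_iff_not_dvd Nat.prime_three]
      omega
    · have h8 : (2 : ℕ) ∣ 2 ^ (2 * i + 2) := dvd_pow_self 2 (by omega)
      obtain ⟨k, hk⟩ := h8
      apply Nat.Coprime.pow_right
      rw [hk, Nat.coprime_comm, Nat.Prime.coprime_iff_not_dvd Nat.prime_two]
      omega
  obtain ⟨p, hpn, hp, hmod⟩ := Nat.forall_exists_prime_gt_and_modEq n
    (q := 3 * 2 ^ (2 * i + 2)) (a := 1 + 2 ^ (2 * i + 2)) (by positivity) hcop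
  have hm3 : p % 3 = 2 := by
    have := hmod.of_mul_right _
    unfold Nat.ModEq at this
    rw [h4] at this
    omega
  have hm2 : p ≡ 1 [MOD 2 ^ (2 * i + 2)] := by
    have := hmod.of_mul_left _
    exact this.trans (by simp [Nat.ModEq])
  have hd : 2 ^ (2 * i + 2) ∣ p - 1 := (Nat.modEq_iff_dvd' hp.one_lt.le).mp hm2.symm
  have hm4 : p % 4 = 1 := by
    have h5 : 4 ∣ p - 1 := (Dvd.intro _ h4.symm).trans hd
    have := hp.one_lt
    omega
  refine ⟨p, hpn, hp, hd, ?_⟩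
  intro hsq
  haveI : Fact p.Prime := ⟨hp⟩
  haveI : Fact (Nat.Prime 3) := ⟨Nat.prime_three⟩
  have h6 := (ZMod.exists_sq_eq_prime_iff_of_mod_four_eq_one (p := p) (q := 3) hm4
    (by norm_num)).mp (by exact_mod_cast hsq)
  have h7 : ((p : ℕ) : ZMod 3) = 2 := by
    rw [← ZMod.natCast_mod, hm3]; rfl
  rw [h7] at h6
  exact no_sq h6

theorem t_sel : S_sel := by
  choose c hc using one_prime
  let f : ℕ → ℕ := fun i => Nat.rec (c 0 3) (fun k m => c (k + 1) m) i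
  have hf0 : f 0 = c 0 3 := rfl
  have hfs : ∀ i, f (i + 1) = c (i + 1) (f i) := fun i => rfl
  have hm : StrictMono f := by
    apply strictMono_nat_of_lt_succ
    intro i
    rw [hfs]
    exact (hc _ _).1
  refine ⟨f, hm, ?_⟩
  intro i
  have h3 : 3 < f i := by
    have h0 : 3 < f 0 := by rw [hf0]; exact (hc 0 3).1
    exact lt_of_lt_of_le h0 (hm.monotone (Nat.zero_le i))
  cases i with
  | zero => exact ⟨(hc 0 3).2.1, h3, (hc 0 3).2.2.1, (hc 0 3).2.2.2⟩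
  | succ k => exact ⟨(hc (k + 1) (f k)).2.1, h3, (hc (k + 1) (f k)).2.2.1, (hc (k + 1) (f k)).2.2.2⟩

theorem t_sum : S_sum := by
  intro t ht
  have hn : ∀ i g, ‖(2 : ℤ_[2]) ^ i * t i g‖ ≤ (1 / 2 : ℝ) ^ i := by
    intro i g
    rw [norm_mul, norm_pow]
    have h1 : ‖(2 : ℤ_[2])‖ = 1 / 2 := by
      have := PadicInt.norm_p (p := 2)
      simpa using this
    rw [h1]
    exact mul_le_of_le_one_right (by positivity) (PadicInt.norm_le_one _)
  have hgeo : Summable (fun i : ℕ => (1 / 2 : ℝ) ^ i) := summable_geometric_two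
  have hs : ∀ g, Summable (fun i => (2 : ℤ_[2]) ^ i * t i g) := fun g =>
    Summable.of_norm_bounded hgeo (fun i => hn i g)
  refine ⟨fun g => ∑' i, (2 : ℤ_[2]) ^ i * t i g, ⟨?_, ?_⟩, ?_⟩
  · exact continuous_tsum (fun i => continuous_const.mul (ht i).1) hgeo hn
  · intro g h
    simp only
    have h9 : ((chi g : ℤ_[2]ˣ) : ℤ_[2]) * ∑' i, (2 : ℤ_[2]) ^ i * t i h =
        ∑' i, ((chi g : ℤ_[2]ˣ) : ℤ_[2]) * ((2 : ℤ_[2]) ^ i * t i h) :=
      ((hs h).tsum_mul_left _).symm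
    rw [h9, ← (hs g).tsum_add ((hs h).mul_left _)]
    congr 1
    ext i
    rw [(ht i).2 g h]
    ring_nf
  · intro i g h
    simp only
    rw [tsum_eq_single i]
    intro j hj
    rw [h j hj, mul_zero]

end Pool.Agent.Y217.CD
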